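import Pool.Agent.Helper10.CR.Goals2

/-!
# Project CR: proof of GoalLift
-/

universe u v

namespace Pool.Agent.Helper40.CR

open Pool.Agent.Helper10.Width Pool.Agent.Helper72.Width Pool.Agent.Helper78.SD
open Pool.Agent.Helper10.CR

section tens

variable {K : Type u} [CommRing K] {ι : Type}

/-- Linear maps respect `tens`. -/
theorem tens_map {M M' : Type u} [AddCommGroup M] [Module K M] [AddCommGroup M'] [Module K M']
    {E : Submodule K (ι → K)} (φ : M →ₗ[K] M') {Q : ι → M} (hQ : Q ∈ tens (M := M) E) :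
    (fun m => φ (Q m)) ∈ tens (M := M') E := by
  induction hQ using Submodule.span_induction with
  | mem x hx =>
    obtain ⟨ε, hε, m, rfl⟩ := hx
    exact Submodule.subset_span ⟨ε, hε, φ m, funext fun i => by simp⟩
  | zero =>
    have : (fun m => φ ((0 : ι → M) m)) = 0 := funext fun m => by simp
    rw [this]
    exact zero_mem _
  | add x y _ _ hx hy =>
    have : (fun m => φ ((x + y) m)) = (fun m => φ (x m)) + fun m => φ (y m) :=
      funext fun m => by simp
    rw [this]
    exact add_mem hx hy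
  | smul t x _ hx =>
    have : (fun m => φ ((t • x) m)) = t • fun m => φ (x m) := funext fun m => by simp
    rw [this]
    exact Submodule.smul_mem _ t hx

/-- Coordinatewise criterion for `tens`. -/
theorem tens_coord [Finite ι] {B : Type u} {E : Submodule K (ι → K)} {h : ι → (B →₀ K)}
    (H : ∀ i, (fun m => h m i) ∈ E) : h ∈ tens (M := B →₀ K) E := by
  classical
  have := Fintype.ofFinite ι
  set s : Finset B := Finset.univ.biUnion fun m => (h m).support with hs
  have e1 : h = ∑ i ∈ s, fun m => (fun m => h m i) m • (Finsupp.single i 1 : B →₀ K) := by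
    ext m j
    rw [Finset.sum_apply, Finsupp.finsetSum_apply]
    simp only [Finsupp.smul_apply, Finsupp.single_apply, smul_eq_mul, mul_ite, mul_one, mul_zero]
    rw [Finset.sum_ite_eq' s j]
    split_ifs with hj
    · rfl
    · by_contra hne
      exact hj (Finset.mem_biUnion.2 ⟨m, Finset.mem_univ _, Finsupp.mem_support_iff.2 hne⟩)
  rw [e1]
  exact sum_mem fun i _ => Submodule.subset_span ⟨_, H i, _, rfl⟩

end tens

variable {R k R' L : Type u} [CommRing R] [Field k] [CommRing R'] [CommRing L] [Algebra R R']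
  [Algebra k L] (C : Ctx R k R' L) {V : Type u} [AddCommGroup V] [Module k V]
  (S : Str k L C.n V) (θ : PP R)

/-- Lifting of `tens EA`. -/
theorem liftA {P : IA C.n θ.n → V} (hP : P ∈ tens (M := V) (C.EA θ)) :
    ∃ (y : C.F S) (η : Fin θ.k → C.F S) (f : Fin θ.n → Fin C.n → C.F S),
      (∀ c, θ.a c • y + ∑ l, θ.b c l • η l = ∑ j, C.a j • f c j) ∧
      C.red S y = P (Sum.inl ()) ∧ ∀ c j, C.red S (f c j) = P (Sum.inr (j, c)) := by
  induction hP using Submodule.span_induction with
  | mem x hx =>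
    obtain ⟨ε, ⟨ξ, φ, η, h, rfl⟩, m, rfl⟩ := hx
    obtain ⟨g, rfl⟩ := C.red_surjective S m
    refine ⟨ξ • g, fun l => η l • g, fun c j => φ (j, c) • g, fun c => ?_, ?_, fun c j => ?_⟩
    · simp only [smul_smul, ← Finset.sum_smul, ← add_smul]
      rw [h c]
    · rw [C.red_smul]; rfl
    · rw [C.red_smul]; rfl
  | zero =>
    refine ⟨0, 0, 0, fun c => by simp, by simp, fun c j => by simp⟩
  | add x x' _ _ hx hx' =>
    obtain ⟨y, η, f, h1, h2, h3⟩ := hx
    obtain ⟨y', η', f', h1', h2', h3'⟩ := hx'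
    refine ⟨y + y', η + η', f + f', fun c => ?_, ?_, fun c j => ?_⟩
    · simp only [Pi.add_apply, smul_add, Finset.sum_add_distrib]
      rw [← h1, ← h1']
      abel
    · rw [map_add, h2, h2']; rfl
    · rw [Pi.add_apply, Pi.add_apply, map_add, h3, h3']; rfl
  | smul t x _ hx =>
    obtain ⟨y, η, f, h1, h2, h3⟩ := hx
    obtain ⟨r, rfl⟩ := C.hρ t
    refine ⟨r • y, fun l => r • η l, fun c j => r • f c j, fun c => ?_, ?_, fun c j => ?_⟩
    · have := congrArg (r • ·) (h1 c)
      simp only [smul_add, Finset.smul_sum] at this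
      simp only [smul_comm _ r]
      exact this
    · rw [C.red_smul, h2]; rfl
    · rw [C.red_smul, h3]; rfl

/-- Lifting of `tens ED`, in the free module over `R'`. -/
theorem liftD {B : Type u} {Q : ID C.n θ.n → (B →₀ L)}
    (hQ : Q ∈ tens (M := B →₀ L) (C.ED θ)) :
    ∃ (y : B →₀ R') (η : Fin θ.k → (B →₀ R')) (f : Fin θ.n → Fin C.n → (B →₀ R'))
      (κ : Fin θ.n → (B →₀ R')),
      (∀ c, θ.a c • y + ∑ l, θ.b c l • η l = ∑ j, C.a j • f c j + C.χ • κ c) ∧
      C.redD y = Q (Sum.inl (Sum.inl ())) ∧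
      (∀ c j, C.redD (f c j) = Q (Sum.inl (Sum.inr (j, c)))) ∧
      ∀ c, C.redD (κ c) = Q (Sum.inr c) := by
  induction hQ using Submodule.span_induction with
  | mem x hx =>
    obtain ⟨ε, ⟨ξ, φ, κ, η, h, rfl⟩, m, rfl⟩ := hx
    obtain ⟨g, rfl⟩ : ∃ g, C.redD g = m := by
      obtain ⟨g, hg⟩ := Finsupp.mapRange_surjective C.ρ' (map_zero _) C.hρ' m
      exact ⟨g, hg⟩
    refine ⟨ξ • g, fun l => η l • g, fun c j => φ (j, c) • g, fun c => κ c • g, fun c => ?_, ?_,
      fun c j => ?_, fun c => ?_⟩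
    · have e : ∀ (r : R) (s : R'), r • s • g = (algebraMap R R' r * s) • g := fun r s => by
        rw [mul_smul, algebraMap_smul]
      simp only [e, smul_smul, ← Finset.sum_smul, ← add_smul]
      rw [h c]
    · rw [C.redD_smul]; rfl
    · rw [C.redD_smul]; rfl
    · rw [C.redD_smul]; rfl
  | zero =>
    refine ⟨0, 0, 0, 0, fun c => by simp, by simp, fun c j => by simp, fun c => by simp⟩
  | add x x' _ _ hx hx' =>
    obtain ⟨y, η, f, κ, h1, h2, h3, h4⟩ := hx
    obtain ⟨y', η', f', κ', h1', h2', h3', h4'⟩ := hx'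
    refine ⟨y + y', η + η', f + f', κ + κ', fun c => ?_, ?_, fun c j => ?_, fun c => ?_⟩
    · simp only [Pi.add_apply, smul_add, Finset.sum_add_distrib]
      rw [show θ.a c • y + θ.a c • y' + (∑ l, θ.b c l • η l + ∑ l, θ.b c l • η' l)
        = (θ.a c • y + ∑ l, θ.b c l • η l) + (θ.a c • y' + ∑ l, θ.b c l • η' l) by abel,
        h1 c, h1' c]
      abel
    · rw [map_add, h2, h2']; rfl
    · rw [Pi.add_apply, Pi.add_apply, map_add, h3, h3']; rfl
    · rw [Pi.add_apply, map_add, h4, h4']; rfl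
  | smul t x _ hx =>
    obtain ⟨y, η, f, κ, h1, h2, h3, h4⟩ := hx
    obtain ⟨r, rfl⟩ := C.hρ' t
    refine ⟨r • y, fun l => r • η l, fun c j => r • f c j, fun c => r • κ c, fun c => ?_, ?_,
      fun c j => ?_, fun c => ?_⟩
    · have := congrArg (r • ·) (h1 c)
      simp only [smul_add, Finset.smul_sum] at this
      have e1 : ∀ (s : R) (g : B →₀ R'), s • r • g = r • s • g := fun s g => smul_comm _ _ _
      have e2 : ∀ (s : R') (g : B →₀ R'), s • r • g = r • s • g := fun s g => smul_comm _ _ _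
      rw [e2]
      simp only [e1]
      exact this
    · rw [C.redD_smul, h2]; rfl
    · rw [C.redD_smul, h3]; rfl
    · rw [C.redD_smul, h4]; rfl

/-- The solutions in `T` in terms of the free module. -/
theorem core {N : ℕ} (X : RS k N) (S : Str k L C.n X.V) (v : X.V) :
    (∃ t ∈ θ.sol (C.tr X S).T, (C.tr X S).π t = v) ↔
    ∃ (y : C.F S) (η : Fin θ.k → C.F S) (f : Fin θ.n → Fin C.n → C.F S)
      (κ : Fin θ.n → (S.ιD →₀ R')),
      (∀ c, θ.a c • y + ∑ l, θ.b c l • η l = ∑ j, C.a j • f c j + C.chi S (κ c)) ∧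
      (∀ c, (fun j => C.red S (f c j)) - S.γ (C.redD (κ c)) ∈ S.Wr) ∧ C.red S y = v := by
  constructor
  · rintro ⟨t, ht, rfl⟩
    obtain ⟨z, hz⟩ := ht
    change C.F S ⧸ C.W S at t
    change Fin θ.k → C.F S ⧸ C.W S at z
    obtain ⟨y, rfl⟩ := Submodule.Quotient.mk_surjective _ t
    choose η hη using fun l => Submodule.Quotient.mk_surjective (C.W S) (z l)
    have h1 : ∀ c, θ.a c • y + ∑ l, θ.b c l • η l ∈ C.W S := by
      intro c
      rw [← Submodule.Quotient.mk_eq_zero]
      have h2 : θ.a c • (Submodule.Quotient.mk y : C.F S ⧸ C.W S) + ∑ l, θ.b c l • z l = 0 := hz c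
      rw [← h2]
      simp only [← hη]
      rw [← Submodule.mkQ_apply, ← Submodule.mkQ_apply, map_add, map_smul, map_sum]
      simp only [map_smul, Submodule.mkQ_apply]
    choose f κ h3 h4 using h1
    exact ⟨y, η, f, κ, h4, h3, rfl⟩
  · rintro ⟨y, η, f, κ, h4, h3, rfl⟩
    refine ⟨(Submodule.Quotient.mk y : C.F S ⧸ C.W S),
      ⟨fun l => (Submodule.Quotient.mk (η l) : C.F S ⧸ C.W S), fun c => ?_⟩, rfl⟩
    change θ.a c • (Submodule.Quotient.mk y : C.F S ⧸ C.W S) +
      ∑ l, θ.b c l • (Submodule.Quotient.mk (η l) : C.F S ⧸ C.W S) = 0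
    have h5 : (Submodule.Quotient.mk (θ.a c • y + ∑ l, θ.b c l • η l) : C.F S ⧸ C.W S) = 0 := by
      rw [Submodule.Quotient.mk_eq_zero]
      exact ⟨f c, κ c, h3 c, h4 c⟩
    rw [← h5, ← Submodule.mkQ_apply, ← Submodule.mkQ_apply, map_add, map_smul, map_sum]
    simp only [map_smul, Submodule.mkQ_apply]

theorem e_split (x : S.ιA →₀ k) (z : S.ιD →₀ L) : S.e (x, z) = S.e (x, 0) + S.e (0, z) := by
  rw [← map_add]
  simp

/-- **CR-LIFT.** -/
theorem goalLift : GoalLift.{u} := by
  intro R k R' L _ _ _ _ _ _ C N X S θ v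
  rw [core]
  constructor
  · rintro ⟨y, η, f, κ, h1, h2, rfl⟩
    set g : IA C.n θ.n → C.F S := Sum.elim (fun _ => y) (fun p => f p.2 p.1) with hg
    set hA : IA C.n θ.n → (S.ιA →₀ k) := fun m => Finsupp.mapRange C.ρ (map_zero _) (g m).1
      with hhA
    set hD : ID C.n θ.n → (S.ιD →₀ L) := Sum.elim (fun m => C.redD (g m).2)
      (fun c => C.redD (κ c)) with hhD
    have mA : hA ∈ tens (M := S.ιA →₀ k) (C.EA θ) := by
      apply tens_coord
      intro i
      refine ⟨y.1 i, fun p => (f p.2 p.1).1 i, fun l => (η l).1 i, fun c => ?_, ?_⟩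
      · have := congrArg (fun w : C.F S => w.1 i) (h1 c)
        simpa [Ctx.chi, Prod.fst_sum, Finsupp.finsetSum_apply] using this
      · ext m
        rcases m with m | m <;> simp [hhA, hg]
    have mD : hD ∈ tens (M := S.ιD →₀ L) (C.ED θ) := by
      apply tens_coord
      intro i
      refine ⟨y.2 i, fun p => (f p.2 p.1).2 i, fun c => κ c i, fun l => (η l).2 i, fun c => ?_, ?_⟩
      · have := congrArg (fun w : C.F S => w.2 i) (h1 c)
        simpa [Ctx.chi, Prod.snd_sum, Finsupp.finsetSum_apply, Algebra.smul_def] using this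
      · ext m
        rcases m with (m | m) | m <;> simp [hhD, hg, Ctx.redD_apply]
    set φ : (S.ιA →₀ k) →ₗ[k] X.V := S.e.toLinearMap.comp (LinearMap.inl k _ _) with hφ
    have key : ∀ m, C.red S (g m) = φ (hA m) + S.e (0, hD (Sum.inl m)) := by
      intro m
      rw [C.red_apply, e_split]
      rfl
    refine ⟨fun m => φ (hA m), tens_map φ mA, hD, mD, key (Sum.inl ()), fun c => ?_⟩
    have := h2 c
    convert this using 2
    · ext j
      exact (key (Sum.inr (j, c))).symm
    · rfl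
  · rintro ⟨P, hP, Q, hQ, rfl, h⟩
    obtain ⟨y, η, f, a1, a2, a3⟩ := liftA C S θ hP
    obtain ⟨y', η', f', κ, d1, d2, d3, d4⟩ := liftD C θ hQ
    have red0 : ∀ w : S.ιD →₀ R', C.red S ((0, w) : C.F S) = S.e (0, C.redD w) := by
      intro w
      rw [C.red_apply]
      congr 2
      simp
    refine ⟨y + (0, y'), fun l => η l + (0, η' l), fun c j => f c j + (0, f' c j), κ,
      fun c => ?_, fun c => ?_, ?_⟩
    · have e1 : θ.a c • ((0, y') : C.F S) + ∑ l, θ.b c l • ((0, η' l) : C.F S) =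
          ∑ j, C.a j • ((0, f' c j) : C.F S) + C.chi S (κ c) := by
        refine Prod.ext ?_ ?_
        · simp [Ctx.chi, Prod.fst_sum]
        · simpa [Ctx.chi, Prod.snd_sum] using d1 c
      simp only [smul_add, Finset.sum_add_distrib]
      rw [← a1 c]
      rw [show θ.a c • y + θ.a c • ((0, y') : C.F S) +
        (∑ l, θ.b c l • η l + ∑ l, θ.b c l • ((0, η' l) : C.F S)) =
        (θ.a c • y + ∑ l, θ.b c l • η l) +
          (θ.a c • ((0, y') : C.F S) + ∑ l, θ.b c l • ((0, η' l) : C.F S)) by abel, e1]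
      abel
    · have := h c
      rw [← d4] at this
      convert this using 2
      ext j
      rw [map_add, a3, red0, d3]
    · rw [map_add, a2, red0, d2]

end Pool.Agent.Helper40.CR
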