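import Pool.Agent.Helper88.CR.GoalsA

/-! # Packet CR-SC: equidistribution of the rough integers as Dirichlet series -/

set_option autoImplicit false

open Finset Filter Topology

open scoped Classical ArithmeticFunction

namespace Pool.Agent.Helper40.CR

open Pool.Agent.Helper88.CR

/-- the function `(log x)^j/j! x^(-s)` -/
noncomputable def Fx (j : ℕ) (s : ℂ) (x : ℝ) : ℂ :=
  ((Real.log x ^ j / (j.factorial : ℝ) : ℝ) : ℂ) * Complex.exp (-s * (Real.log x : ℝ))

theorem norm_exp_mul (s : ℂ) (l : ℝ) :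
    ‖Complex.exp (-s * (l : ℝ))‖ = Real.exp (-(s.re * l)) := by
  rw [Complex.norm_exp]
  congr 1
  simp

theorem norm_Fx (j : ℕ) (s : ℂ) {x : ℝ} (hx : 1 ≤ x) :
    ‖Fx j s x‖ = Real.log x ^ j / (j.factorial : ℝ) * Real.exp (-(s.re * Real.log x)) := by
  unfold Fx
  rw [norm_mul, Complex.norm_real, norm_exp_mul, Real.norm_of_nonneg]
  have := Real.log_nonneg hx
  positivity

theorem hasDerivAt_Fx (j : ℕ) (s : ℂ) {x : ℝ} (hx : 0 < x) :
    HasDerivAt (Fx j s)
      ((((j : ℝ) * Real.log x ^ (j - 1) * x⁻¹ / (j.factorial : ℝ) : ℝ) : ℂ) *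
        Complex.exp (-s * (Real.log x : ℝ)) +
        ((Real.log x ^ j / (j.factorial : ℝ) : ℝ) : ℂ) *
        (Complex.exp (-s * (Real.log x : ℝ)) * (-s * ((x⁻¹ : ℝ) : ℂ)))) x := by
  have h1 : HasDerivAt Real.log x⁻¹ x := Real.hasDerivAt_log hx.ne'
  have h2 : HasDerivAt (fun y : ℝ => Real.log y ^ j / (j.factorial : ℝ))
      ((j : ℝ) * Real.log x ^ (j - 1) * x⁻¹ / (j.factorial : ℝ)) x := (h1.pow j).div_const _
  have h3 : HasDerivAt (fun y : ℝ => Complex.exp (-s * (Real.log y : ℝ)))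
      (Complex.exp (-s * (Real.log x : ℝ)) * (-s * ((x⁻¹ : ℝ) : ℂ))) x :=
    (h1.ofReal_comp.const_mul (-s)).cexp
  exact h2.ofReal_comp.mul h3

/-- bound for the derivative -/
theorem norm_deriv_le (j : ℕ) (s : ℂ) {x Y : ℝ} (hY : 0 < Y) (h1 : 1 ≤ Real.log Y) (hx : Y ≤ x)
    (hx2 : x ≤ 2 * Y) (hs : 0 ≤ s.re) :
    ‖(((j : ℝ) * Real.log x ^ (j - 1) * x⁻¹ / (j.factorial : ℝ) : ℝ) : ℂ) *
        Complex.exp (-s * (Real.log x : ℝ)) +
        ((Real.log x ^ j / (j.factorial : ℝ) : ℝ) : ℂ) *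
        (Complex.exp (-s * (Real.log x : ℝ)) * (-s * ((x⁻¹ : ℝ) : ℂ)))‖ ≤
      (j + ‖s‖) * (Real.log (2 * Y) ^ j / (j.factorial : ℝ) *
        Real.exp (-(s.re * Real.log Y))) / Y := by
  have hx0 : 0 < x := lt_of_lt_of_le hY hx
  have hl1 : Real.log Y ≤ Real.log x := Real.log_le_log hY hx
  have hl2 : Real.log x ≤ Real.log (2 * Y) := Real.log_le_log hx0 hx2
  have hl : 1 ≤ Real.log x := h1.trans hl1
  have hf : (0 : ℝ) < j.factorial := by exact_mod_cast j.factorial_pos
  have he : Real.exp (-(s.re * Real.log x)) ≤ Real.exp (-(s.re * Real.log Y)) := by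
    apply Real.exp_le_exp.2
    have := mul_le_mul_of_nonneg_left hl1 hs
    linarith
  have hp : Real.log x ^ j ≤ Real.log (2 * Y) ^ j :=
    pow_le_pow_left₀ (by linarith) hl2 j
  have hp1 : Real.log x ^ (j - 1) ≤ Real.log (2 * Y) ^ j :=
    (pow_le_pow_right₀ hl (Nat.sub_le j 1)).trans hp
  have hxi : x⁻¹ ≤ Y⁻¹ := inv_anti₀ hY hx
  have hxi0 : 0 ≤ x⁻¹ := by positivity
  have hlx : 0 ≤ Real.log x := by linarith
  have hL0 : 0 ≤ Real.log (2 * Y) := by linarith
  refine (norm_add_le _ _).trans ?_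
  rw [norm_mul, norm_mul, norm_mul, norm_mul, norm_neg, Complex.norm_real, Complex.norm_real,
    Complex.norm_real, norm_exp_mul, Real.norm_of_nonneg (by positivity),
    Real.norm_of_nonneg (by positivity), Real.norm_of_nonneg hxi0]
  have e1 : (j : ℝ) * Real.log x ^ (j - 1) * x⁻¹ / (j.factorial : ℝ) *
      Real.exp (-(s.re * Real.log x)) ≤
      (j : ℝ) * Real.log (2 * Y) ^ j * Y⁻¹ / (j.factorial : ℝ) *
      Real.exp (-(s.re * Real.log Y)) := by gcongr
  have e2 : Real.log x ^ j / (j.factorial : ℝ) *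
      (Real.exp (-(s.re * Real.log x)) * (‖s‖ * x⁻¹)) ≤
      Real.log (2 * Y) ^ j / (j.factorial : ℝ) *
      (Real.exp (-(s.re * Real.log Y)) * (‖s‖ * Y⁻¹)) := by gcongr
  refine (add_le_add e1 e2).trans (le_of_eq ?_)
  field_simp

/-- the variation of `Fx` -/
theorem var_Fx (j : ℕ) (s : ℂ) {Y : ℕ} (h1 : 1 ≤ Real.log Y) (hs : 0 ≤ s.re)
    {n : ℕ} (hn : n ∈ Ioo Y (2 * Y)) :
    ‖Fx j s ((n + 1 : ℕ) : ℝ) - Fx j s (n : ℝ)‖ ≤
      (j + ‖s‖) * (Real.log (2 * Y) ^ j / (j.factorial : ℝ) *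
        Real.exp (-(s.re * Real.log Y))) / Y := by
  have hY : (0 : ℝ) < Y := by
    rcases Nat.eq_zero_or_pos Y with h | h
    · exfalso
      rw [h] at h1
      simp at h1
      linarith
    · exact_mod_cast h
  have hn1 : (Y : ℝ) ≤ n := by exact_mod_cast (mem_Ioo.1 hn).1.le
  have hn2 : ((n : ℝ) + 1) ≤ 2 * Y := by
    have := (mem_Ioo.1 hn).2
    exact_mod_cast this
  have key := norm_image_sub_le_of_norm_deriv_le_segment' (f := Fx j s) (a := (n : ℝ))
    (b := (n : ℝ) + 1) (C := (j + ‖s‖) * (Real.log (2 * Y) ^ j / (j.factorial : ℝ) *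
        Real.exp (-(s.re * Real.log Y))) / Y)
    (fun x hx => (hasDerivAt_Fx j s (lt_of_lt_of_le hY (hn1.trans hx.1))).hasDerivWithinAt)
    (fun x hx => norm_deriv_le j s hY h1 (hn1.trans hx.1) (hx.2.le.trans hn2) hs)
    ((n : ℝ) + 1) (Set.right_mem_Icc.2 (by linarith))
  push_cast
  refine key.trans (le_of_eq ?_)
  ring

/-- the terms of the Dirichlet series -/
theorem term_eq (a : ℕ → ℂ) (ha : a 0 = 0) (j : ℕ) (s : ℂ) (n : ℕ) :
    LSeries.term (gj a j) s n = a n * Fx j s n := by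
  rcases Nat.eq_zero_or_pos n with h | h
  · subst h
    rw [LSeries.term_zero, ha, zero_mul]
  · rw [LSeries.term_of_ne_zero h.ne']
    unfold gj Fx
    have hn : (n : ℂ) ≠ 0 := by exact_mod_cast h.ne'
    rw [Complex.cpow_def_of_ne_zero hn, div_eq_mul_inv, ← Complex.exp_neg,
      mul_assoc, Complex.natCast_log]
    congr 3
    ring

/-- summability -/
theorem summ (a : ℕ → ℂ) (ha : ∀ n, ‖a n‖ ≤ 1) (j : ℕ) {s : ℂ} (hs : 1 < s.re) :
    LSeriesSummable (gj a j) s := by
  set ε : ℝ := (s.re - 1) / 2 with hε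
  have hε0 : 0 < ε := by rw [hε]; linarith
  refine LSeriesSummable_of_le_const_mul_rpow (x := 1 + ε) (by rw [hε]; linarith)
    ⟨(ε⁻¹) ^ j, fun n hn => ?_⟩
  have hn1 : (1 : ℝ) ≤ n := by exact_mod_cast Nat.one_le_iff_ne_zero.2 hn
  have hl : 0 ≤ Real.log n := Real.log_nonneg hn1
  have h1 : (ε * Real.log n) ^ j / (j.factorial : ℝ) ≤ Real.exp (ε * Real.log n) :=
    Real.pow_div_factorial_le_exp _ (by positivity) j
  have h2 : Real.exp (ε * Real.log n) = (n : ℝ) ^ (1 + ε - 1) := by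
    rw [Real.rpow_def_of_pos (by linarith)]
    congr 1
    ring
  unfold gj
  rw [norm_mul, Complex.norm_real, Real.norm_of_nonneg (by positivity)]
  calc ‖a n‖ * (Real.log n ^ j / (j.factorial : ℝ))
      ≤ 1 * (Real.log n ^ j / (j.factorial : ℝ)) := by
        gcongr
        exact ha n
    _ = (ε⁻¹) ^ j * ((ε * Real.log n) ^ j / (j.factorial : ℝ)) := by
        rw [mul_pow, inv_pow]
        field_simp
    _ ≤ (ε⁻¹) ^ j * (n : ℝ) ^ (1 + ε - 1) := by
        rw [← h2]
        gcongr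

/-- the sum over `(z, 2^I z]` in blocks -/
theorem sum_blocks (z : ℕ) (h : ℕ → ℂ) (h0 : ∀ n ≤ z, h n = 0) (I : ℕ) :
    ∑ n ∈ range (2 ^ I * z + 1), h n =
      ∑ i ∈ range I, ∑ n ∈ Ioc (2 ^ i * z) (2 * (2 ^ i * z)), h n := by
  induction I with
  | zero =>
    rw [range_zero, sum_empty]
    refine sum_eq_zero fun n hn => h0 n ?_
    have := mem_range.1 hn
    omega
  | succ I ih =>
    rw [sum_range_succ (fun i => ∑ n ∈ Ioc (2 ^ i * z) (2 * (2 ^ i * z)), h n) I, ← ih]
    have e : 2 ^ (I + 1) * z = 2 * (2 ^ I * z) := by ring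
    rw [e]
    have h1 : range (2 * (2 ^ I * z) + 1) =
        range (2 ^ I * z + 1) ∪ Ioc (2 ^ I * z) (2 * (2 ^ I * z)) := by
      ext n
      simp only [mem_range, mem_union, mem_Ioc]
      omega
    rw [h1, sum_union]
    rw [disjoint_left]
    intro n hn hn'
    have := mem_range.1 hn
    have := (mem_Ioc.1 hn').1
    omega

/-- a rough integer is `1` or `> z` -/
theorem rg_gt {z n : ℕ} (h : rg z n) (h1 : n ≠ 1) : z < n := by
  obtain ⟨p, hp, hpn⟩ := Nat.exists_prime_and_dvd h1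
  exact lt_of_lt_of_le (h.2 p hp hpn) (Nat.le_of_dvd (Nat.pos_of_ne_zero h.1) hpn)

/-- geometric sums -/
theorem geo {u : ℝ} (hu : 0 < u) (I : ℕ) :
    ∑ i ∈ range I, Real.exp (-(u * i)) ≤ 1 + 1 / u := by
  have h1 : ∀ i : ℕ, Real.exp (-(u * i)) = (Real.exp (-u)) ^ i := by
    intro i
    rw [← Real.exp_nat_mul]
    congr 1
    ring
  simp only [h1]
  have h0 : 0 ≤ Real.exp (-u) := (Real.exp_pos _).le
  have h2 : Real.exp (-u) < 1 := by
    rw [Real.exp_lt_one_iff]
    linarith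
  refine ((summable_geometric_of_lt_one h0 h2).sum_le_tsum _ fun i _ => by positivity).trans ?_
  rw [tsum_geometric_of_lt_one h0 h2]
  have h3 : Real.exp (-u) ≤ 1 / (1 + u) := by
    rw [Real.exp_neg, ← one_div]
    exact one_div_le_one_div_of_le (by linarith) (by linarith [Real.add_one_le_exp u])
  have h4 : u / (1 + u) ≤ 1 - Real.exp (-u) := by
    have : 1 - 1 / (1 + u) = u / (1 + u) := by field_simp; ring
    linarith
  have h5 : 0 < u / (1 + u) := by positivity
  calc (1 - Real.exp (-u))⁻¹ ≤ (u / (1 + u))⁻¹ := inv_anti₀ h5 h4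
    _ = 1 + 1 / u := by field_simp; ring

/-- `(log 2Y)^j/j!` against `e^(a log Y)` -/
theorem pow_le_exp {l L a : ℝ} (j : ℕ) (hl0 : 0 ≤ L) (hl : L ≤ 2 * l) (ha : 0 < a) :
    L ^ j / (j.factorial : ℝ) ≤ (2 / a) ^ j * Real.exp (a * l) := by
  have hl1 : 0 ≤ l := by linarith
  have h1 : (a * l) ^ j / (j.factorial : ℝ) ≤ Real.exp (a * l) :=
    Real.pow_div_factorial_le_exp _ (by positivity) j
  calc L ^ j / (j.factorial : ℝ) ≤ (2 * l) ^ j / (j.factorial : ℝ) := by gcongr
    _ = (2 / a) ^ j * ((a * l) ^ j / (j.factorial : ℝ)) := by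
        rw [← mul_div_assoc, ← mul_pow]
        congr 2
        field_simp
    _ ≤ _ := by gcongr

/-- one block -/
theorem block {C c : ℝ} (hC : 0 < C) (hc : 0 < c)
    (hbk : ∀ z q a Y : ℕ, 2 ≤ z → 1 ≤ q → q ^ 8 ≤ z →
      Nat.Coprime a q → z ≤ Y → ∀ (f : ℕ → ℂ) (B τ : ℝ), 0 ≤ B → 0 ≤ τ →
      (∀ n ∈ Ioc Y (2 * Y), ‖f n‖ ≤ B) → (∀ n ∈ Ioo Y (2 * Y), ‖f (n + 1) - f n‖ ≤ τ * B / Y) →
      ‖∑ n ∈ (Ioc Y (2 * Y)).filter (fun n => n ≡ a [MOD q] ∧ rg z n), f n
          - ((Wz z / (Nat.totient q : ℝ) : ℝ) : ℂ) * ∑ n ∈ Ioc Y (2 * Y), f n‖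
        ≤ C * B * (Y / (Nat.totient q : ℝ)) *
          (Real.exp (-(c * (Real.log Y / Real.log z))) / Real.log z
            + (1 + τ) * (Y : ℝ) ^ (-(1 / 4) : ℝ)))
    {z q a : ℕ} (hz : 16 ≤ z) (hq : 1 ≤ q) (hqz : q ^ 8 ≤ z) (hcop : Nat.Coprime a q)
    {s : ℂ} (j : ℕ) (hs1 : 1 < s.re) (hs2 : s.re ≤ 2) (hti : |s.im| ≤ (z : ℝ) ^ (1 / 16 : ℝ))
    (i : ℕ) :
    ‖∑ n ∈ Ioc (2 ^ i * z) (2 * (2 ^ i * z)), (cu z q a n * Fx j s n -
      ((Wz z / (Nat.totient q : ℝ) : ℝ) : ℂ) * (gz z n * Fx j s n))‖ ≤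
    C / (Nat.totient q : ℝ) * ((4 / c * Real.log z) ^ j *
      Real.exp (-((c * Real.log 2 / (2 * Real.log z)) * i)) / Real.log z +
      4 * 64 ^ j * Real.exp (-((Real.log 2 / 8) * i))) := by
  set Y : ℕ := 2 ^ i * z with hY
  have hzY : z ≤ Y := by
    rw [hY]
    exact Nat.le_mul_of_pos_left _ (by positivity)
  have hφ : (0 : ℝ) < (Nat.totient q : ℝ) := by exact_mod_cast Nat.totient_pos.2 hq
  have hz0 : (16 : ℝ) ≤ z := by exact_mod_cast hz
  have hY0 : (16 : ℝ) ≤ Y := by exact_mod_cast hz.trans hzY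
  have hzY' : (z : ℝ) ≤ Y := by exact_mod_cast hzY
  have hl2 : 0 < Real.log 2 := Real.log_pos (by norm_num)
  have hl16 : 1 ≤ Real.log 16 := by
    have h1 : Real.log 16 = 4 * Real.log 2 := by
      rw [show (16 : ℝ) = 2 ^ 4 by norm_num, Real.log_pow]
      norm_num
    have := Real.log_two_gt_d9
    linarith
  have hlz : 1 ≤ Real.log z := hl16.trans (Real.log_le_log (by norm_num) hz0)
  have hlY : 1 ≤ Real.log Y := hl16.trans (Real.log_le_log (by norm_num) hY0)
  have hlY2 : Real.log Y = Real.log z + i * Real.log 2 := by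
    rw [hY]
    push_cast
    rw [Real.log_mul (by positivity) (by linarith), Real.log_pow]
    ring
  have hlYi : i * Real.log 2 ≤ Real.log Y := by linarith
  have hL : Real.log (2 * Y) = Real.log 2 + Real.log Y := by
    rw [Real.log_mul (by norm_num) (by linarith)]
  have hL2 : Real.log (2 * Y) ≤ 2 * Real.log Y := by
    have : Real.log 2 ≤ Real.log Y := Real.log_le_log (by norm_num) (by linarith)
    linarith
  have hL0 : 0 ≤ Real.log (2 * Y) := by linarith
  have hf : (0 : ℝ) < j.factorial := by exact_mod_cast j.factorial_pos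
  set A : ℝ := Real.log (2 * Y) ^ j / (j.factorial : ℝ) with hA
  have hA0 : 0 ≤ A := by positivity
  set B : ℝ := A * Real.exp (-(s.re * Real.log Y)) with hB
  have hB0 : 0 ≤ B := by positivity
  have hBY : B * Y ≤ A := by
    have h1 : (Y : ℝ) = Real.exp (Real.log Y) := (Real.exp_log (by linarith)).symm
    have h2 : Real.exp (-(s.re * Real.log Y)) * Y ≤ 1 := by
      conv_lhs => rw [h1, Real.log_exp]
      rw [← Real.exp_add, Real.exp_le_one_iff]
      nlinarith
    calc B * Y = A * (Real.exp (-(s.re * Real.log Y)) * Y) := by rw [hB]; ring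
      _ ≤ A * 1 := by gcongr
      _ = A := mul_one A
  have h1 : ∀ n ∈ Ioc Y (2 * Y), ‖Fx j s n‖ ≤ B := by
    intro n hn
    have hn1 : (Y : ℝ) ≤ n := by exact_mod_cast (mem_Ioc.1 hn).1.le
    have hn2 : (n : ℝ) ≤ 2 * Y := by exact_mod_cast (mem_Ioc.1 hn).2
    have hn0 : (1 : ℝ) ≤ n := by linarith
    have hln : Real.log Y ≤ Real.log n := Real.log_le_log (by linarith) hn1
    have hln2 : Real.log n ≤ Real.log (2 * Y) := Real.log_le_log (by linarith) hn2
    have hln0 : 0 ≤ Real.log n := by linarith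
    rw [norm_Fx j s hn0, hB, hA]
    have he : Real.exp (-(s.re * Real.log n)) ≤ Real.exp (-(s.re * Real.log Y)) := by
      apply Real.exp_le_exp.2
      have := mul_le_mul_of_nonneg_left hln (by linarith : 0 ≤ s.re)
      linarith
    gcongr
  have h2 : ∀ n ∈ Ioo Y (2 * Y), ‖Fx j s ((n + 1 : ℕ) : ℝ) - Fx j s n‖ ≤
      ((j : ℝ) + ‖s‖) * B / Y := fun n hn => var_Fx j s hlY (by linarith) hn
  have key := hbk z q a Y (by omega) hq hqz hcop hzY (fun n => Fx j s n) B (j + ‖s‖) hB0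
    (by positivity) h1 h2
  have hsum : ∑ n ∈ Ioc Y (2 * Y), (cu z q a n * Fx j s n -
      ((Wz z / (Nat.totient q : ℝ) : ℝ) : ℂ) * (gz z n * Fx j s n)) =
      ∑ n ∈ (Ioc Y (2 * Y)).filter (fun n => n ≡ a [MOD q] ∧ rg z n), Fx j s n
          - ((Wz z / (Nat.totient q : ℝ) : ℝ) : ℂ) * ∑ n ∈ Ioc Y (2 * Y), Fx j s n := by
    rw [sum_sub_distrib, sum_filter, mul_sum]
    congr 1
    · refine sum_congr rfl fun n hn => ?_
      have hn1 : n ≠ 1 := by
        have := (mem_Ioc.1 hn).1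
        omega
      unfold cu
      by_cases h : n ≡ a [MOD q] ∧ rg z n
      · rw [if_pos ⟨h.1, h.2, hn1⟩, if_pos h, one_mul]
      · rw [if_neg h, if_neg, zero_mul]
        exact fun h' => h ⟨h'.1, h'.2.1⟩
    · refine sum_congr rfl fun n hn => ?_
      have hn1 : z < n := by
        have := (mem_Ioc.1 hn).1
        omega
      unfold gz
      rw [if_pos hn1, one_mul]
  rw [hsum]
  refine key.trans ?_
  have c1 : A * Real.exp (-(c * (Real.log Y / Real.log z))) ≤ (4 / c * Real.log z) ^ j *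
      Real.exp (-((c * Real.log 2 / (2 * Real.log z)) * i)) := by
    have ha : 0 < c / (2 * Real.log z) := by positivity
    have h3 := pow_le_exp j hL0 hL2 ha
    have h4 : 2 / (c / (2 * Real.log z)) = 4 / c * Real.log z := by
      field_simp
      ring
    rw [h4] at h3
    calc A * Real.exp (-(c * (Real.log Y / Real.log z)))
        ≤ ((4 / c * Real.log z) ^ j * Real.exp (c / (2 * Real.log z) * Real.log Y)) *
          Real.exp (-(c * (Real.log Y / Real.log z))) := by gcongr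
      _ = (4 / c * Real.log z) ^ j * Real.exp (-(c / (2 * Real.log z) * Real.log Y)) := by
          rw [mul_assoc, ← Real.exp_add]
          congr 2
          field_simp
          ring
      _ ≤ _ := by
          refine mul_le_mul_of_nonneg_left (Real.exp_le_exp.2 (neg_le_neg ?_)) (by positivity)
          calc c * Real.log 2 / (2 * Real.log z) * i = c / (2 * Real.log z) * (i * Real.log 2) := by
                ring
            _ ≤ c / (2 * Real.log z) * Real.log Y := by gcongr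
  have c2 : A * ((1 + (j + ‖s‖)) * (Y : ℝ) ^ (-(1 / 4) : ℝ)) ≤
      4 * 64 ^ j * Real.exp (-((Real.log 2 / 8) * i)) := by
    have h3 := pow_le_exp j hL0 hL2 (show (0 : ℝ) < 1 / 16 by norm_num)
    rw [show (2 : ℝ) / (1 / 16) = 32 by norm_num] at h3
    have h4 : (z : ℝ) ^ (1 / 16 : ℝ) ≤ Real.exp (1 / 16 * Real.log Y) := by
      rw [Real.rpow_def_of_pos (by linarith)]
      apply Real.exp_le_exp.2
      have : Real.log z ≤ Real.log Y := Real.log_le_log (by linarith) hzY'
      linarith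
    have h5 : 1 ≤ Real.exp (1 / 16 * Real.log Y) := Real.one_le_exp (by linarith)
    have h6 : ‖s‖ ≤ 2 + Real.exp (1 / 16 * Real.log Y) := by
      have := Complex.norm_le_abs_re_add_abs_im s
      rw [abs_of_pos (by linarith : 0 < s.re)] at this
      linarith
    have h7 : 1 + ((j : ℝ) + ‖s‖) ≤ (j + 4) * Real.exp (1 / 16 * Real.log Y) := by
      nlinarith [Nat.cast_nonneg (α := ℝ) j]
    have h8 : ((j : ℝ) + 4) ≤ 4 * 2 ^ j := by
      have : (j + 1 : ℕ) ≤ 2 ^ j := Nat.lt_two_pow_self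
      have h9 : ((j : ℝ) + 1) ≤ 2 ^ j := by exact_mod_cast this
      nlinarith [Nat.cast_nonneg (α := ℝ) j]
    have h10 : (Y : ℝ) ^ (-(1 / 4) : ℝ) = Real.exp (-(1 / 4 * Real.log Y)) := by
      rw [Real.rpow_def_of_pos (by linarith)]
      congr 1
      ring
    have hs0 : 0 ≤ ‖s‖ := norm_nonneg s
    rw [h10]
    calc A * ((1 + (j + ‖s‖)) * Real.exp (-(1 / 4 * Real.log Y)))
        ≤ (32 ^ j * Real.exp (1 / 16 * Real.log Y)) *
          (((4 * 2 ^ j) * Real.exp (1 / 16 * Real.log Y)) *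
            Real.exp (-(1 / 4 * Real.log Y))) := by
          gcongr
          exact h7.trans (by gcongr)
      _ = (4 * 64 ^ j) * (Real.exp (1 / 16 * Real.log Y) * Real.exp (1 / 16 * Real.log Y) *
            Real.exp (-(1 / 4 * Real.log Y))) := by
          rw [show (64 : ℝ) = 32 * 2 by norm_num, mul_pow]
          ring
      _ = (4 * 64 ^ j) * Real.exp (-(1 / 8 * Real.log Y)) := by
          rw [← Real.exp_add, ← Real.exp_add]
          congr 2
          ring
      _ ≤ _ := by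
          refine mul_le_mul_of_nonneg_left (Real.exp_le_exp.2 (neg_le_neg ?_)) (by positivity)
          calc Real.log 2 / 8 * i = 1 / 8 * (i * Real.log 2) := by ring
            _ ≤ 1 / 8 * Real.log Y := by gcongr
  have hlz0 : 0 < Real.log z := by linarith
  have hY4 : 0 ≤ (Y : ℝ) ^ (-(1 / 4) : ℝ) := by positivity
  calc C * B * (Y / (Nat.totient q : ℝ)) *
          (Real.exp (-(c * (Real.log Y / Real.log z))) / Real.log z
            + (1 + (j + ‖s‖)) * (Y : ℝ) ^ (-(1 / 4) : ℝ))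
      = C / (Nat.totient q : ℝ) * ((B * Y) *
          (Real.exp (-(c * (Real.log Y / Real.log z))) / Real.log z
            + (1 + (j + ‖s‖)) * (Y : ℝ) ^ (-(1 / 4) : ℝ))) := by ring
    _ ≤ C / (Nat.totient q : ℝ) * (A *
          (Real.exp (-(c * (Real.log Y / Real.log z))) / Real.log z
            + (1 + (j + ‖s‖)) * (Y : ℝ) ^ (-(1 / 4) : ℝ))) := by gcongr
    _ = C / (Nat.totient q : ℝ) * (A * Real.exp (-(c * (Real.log Y / Real.log z))) / Real.log z
            + A * ((1 + (j + ‖s‖)) * (Y : ℝ) ^ (-(1 / 4) : ℝ))) := by ring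
    _ ≤ _ := by gcongr

/-- SC. -/
theorem sc (hBK : StmtBK) : StmtSC := by
  obtain ⟨C, c, hC, hc, hbk⟩ := hBK
  have hl2 : 0 < Real.log 2 := Real.log_pos (by norm_num)
  set D : ℝ := C * ((1 + 2 / (c * Real.log 2)) + 4 * (1 + 8 / Real.log 2)) with hD
  refine ⟨max 1 (max (4 / c) (max 64 D)), le_max_left _ _, ?_⟩
  set K : ℝ := max 1 (max (4 / c) (max 64 D)) with hK
  have K1 : 4 / c ≤ K := (le_max_left _ _).trans (le_max_right _ _)
  have K2 : 64 ≤ K := (le_max_left _ _).trans ((le_max_right _ _).trans (le_max_right _ _))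
  have K3 : D ≤ K := (le_max_right _ _).trans ((le_max_right _ _).trans (le_max_right _ _))
  intro z q a hz hq hqz hcop s j hs1 hs2 hti
  have hφ : (0 : ℝ) < (Nat.totient q : ℝ) := by exact_mod_cast Nat.totient_pos.2 hq
  have hz0 : (16 : ℝ) ≤ z := by exact_mod_cast hz
  have hl16 : 1 ≤ Real.log 16 := by
    have h1 : Real.log 16 = 4 * Real.log 2 := by
      rw [show (16 : ℝ) = 2 ^ 4 by norm_num, Real.log_pow]
      norm_num
    have := Real.log_two_gt_d9
    linarith
  have hlz : 1 ≤ Real.log z := hl16.trans (Real.log_le_log (by norm_num) hz0)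
  have hcu0 : cu z q a 0 = 0 := by
    unfold cu
    rw [if_neg]
    exact fun h => h.2.1.1 rfl
  have hgz0 : gz z 0 = 0 := by
    unfold gz
    rw [if_neg (by omega)]
  have hcu1 : ∀ n, ‖cu z q a n‖ ≤ 1 := by
    intro n
    unfold cu
    split_ifs <;> simp
  have hgz1 : ∀ n, ‖gz z n‖ ≤ 1 := by
    intro n
    unfold gz
    split_ifs <;> simp
  have s1 : HasSum (fun n : ℕ => cu z q a n * Fx j s n) (LL (cu z q a) j s) := by
    have h := (summ (cu z q a) hcu1 j hs1).hasSum
    have h' : (fun n => LSeries.term (gj (cu z q a) j) s n) =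
        fun n : ℕ => cu z q a n * Fx j s n := funext fun n => term_eq _ hcu0 j s n
    have h'' : LL (cu z q a) j s = ∑' n, LSeries.term (gj (cu z q a) j) s n := rfl
    rw [h'', ← h']
    exact h
  have s2 : HasSum (fun n : ℕ => gz z n * Fx j s n) (LL (gz z) j s) := by
    have h := (summ (gz z) hgz1 j hs1).hasSum
    have h' : (fun n => LSeries.term (gj (gz z) j) s n) =
        fun n : ℕ => gz z n * Fx j s n := funext fun n => term_eq _ hgz0 j s n
    have h'' : LL (gz z) j s = ∑' n, LSeries.term (gj (gz z) j) s n := rfl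
    rw [h'', ← h']
    exact h
  have s3 := (s1.sub (s2.mul_left ((Wz z / (Nat.totient q : ℝ) : ℝ) : ℂ))).tendsto_sum_nat
  have hI : Tendsto (fun I : ℕ => 2 ^ I * z + 1) atTop atTop := by
    refine tendsto_atTop_mono (fun I => ?_) tendsto_id
    have h1 : I < 2 ^ I := Nat.lt_two_pow_self
    have h2 : 2 ^ I ≤ 2 ^ I * z := Nat.le_mul_of_pos_right _ (by omega)
    simp only [id]
    omega
  refine le_of_tendsto (s3.comp hI).norm (Eventually.of_forall fun I => ?_)
  simp only [Function.comp]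
  rw [sum_blocks z _ (fun n hn => ?_) I]
  · refine (norm_sum_le _ _).trans ?_
    refine (sum_le_sum fun i _ => block hC hc hbk hz hq hqz hcop j hs1 hs2 hti i).trans ?_
    rw [← mul_sum, sum_add_distrib, ← mul_sum, ← sum_div, ← mul_sum]
    have g1 := geo (show 0 < c * Real.log 2 / (2 * Real.log z) by positivity) I
    have g2 := geo (show 0 < Real.log 2 / 8 by positivity) I
    have e1 : (1 + 1 / (c * Real.log 2 / (2 * Real.log z))) / Real.log z ≤
        1 + 2 / (c * Real.log 2) := by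
      have e2 : (1 + 1 / (c * Real.log 2 / (2 * Real.log z))) / Real.log z =
          1 / Real.log z + 2 / (c * Real.log 2) := by
        field_simp
      rw [e2]
      have : 1 / Real.log z ≤ 1 := (div_le_one (by linarith)).2 hlz
      linarith
    have e3 : 1 + 1 / (Real.log 2 / 8) = 1 + 8 / Real.log 2 := by
      field_simp
    have p1 : (4 / c * Real.log z) ^ j ≤ (K * Real.log z) ^ j := by gcongr
    have p2 : (64 : ℝ) ^ j ≤ (K * Real.log z) ^ j := by
      gcongr
      nlinarith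
    have p0 : 0 ≤ (K * Real.log z) ^ j := by
      have : 0 ≤ K := by linarith
      positivity
    have q1 : ((4 / c * Real.log z) ^ j *
          ∑ i ∈ range I, Real.exp (-((c * Real.log 2 / (2 * Real.log z)) * i))) / Real.log z ≤
        (K * Real.log z) ^ j * (1 + 2 / (c * Real.log 2)) := by
      rw [mul_div_assoc]
      refine mul_le_mul p1 ?_ (by positivity) p0
      refine le_trans ?_ e1
      gcongr
    have q2 : 4 * (64 : ℝ) ^ j * ∑ i ∈ range I, Real.exp (-((Real.log 2 / 8) * i)) ≤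
        4 * (K * Real.log z) ^ j * (1 + 8 / Real.log 2) := by
      rw [← e3]
      gcongr
    calc C / (Nat.totient q : ℝ) * (((4 / c * Real.log z) ^ j *
          ∑ i ∈ range I, Real.exp (-((c * Real.log 2 / (2 * Real.log z)) * i))) / Real.log z +
          4 * 64 ^ j * ∑ i ∈ range I, Real.exp (-((Real.log 2 / 8) * i)))
        ≤ C / (Nat.totient q : ℝ) * ((K * Real.log z) ^ j * (1 + 2 / (c * Real.log 2)) +
          4 * (K * Real.log z) ^ j * (1 + 8 / Real.log 2)) := by
          gcongr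
      _ = D / (Nat.totient q : ℝ) * (K * Real.log z) ^ j := by rw [hD]; ring
      _ ≤ K / (Nat.totient q : ℝ) * (K * Real.log z) ^ j := by gcongr
  · unfold cu gz
    rw [if_neg, if_neg (by omega)]
    · ring
    · intro h
      have := rg_gt h.2.1 h.2.2
      omega

end Pool.Agent.Helper40.CR
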